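import Mathlib

set_option autoImplicit false

namespace Pool.Agent.Results.MP_2c9be0_lc.Separate

open Matrix MulOpposite Pointwise

section defs
variable {S A : Type} [Semiring S]

def Computed (f : List A → S) : Prop :=
  ∃ (n : ℕ) (α : Fin n → S) (δ : A → Matrix (Fin n) (Fin n) S) (β : Fin n → S),
    ∀ w, f w = α ⬝ᵥ ((w.map δ).prod *ᵥ β)

def Lam (f : List A → S) (Q : Finset (List A)) (T : Set (List A)) :
    Set ((Q → S) × (Q → A → Q → S)) :=
  {l | (∀ w ∈ T, f w = ∑ q : Q, l.1 q * f (q.1 ++ w)) ∧
    ∀ (q : Q) (a : A), ∀ w ∈ T, f (q.1 ++ [a] ++ w) = ∑ p : Q, l.2 q a p * f (p.1 ++ w)}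

def Guessable (f : List A → S) : Prop :=
  ∃ Q T : Finset (List A), Q.Nonempty ∧ Lam f Q T = Lam f Q Set.univ ∧
    (Lam f Q Set.univ).Nonempty

def StronglyGuessable (f : List A → S) : Prop :=
  Guessable f ∧ ∀ Q : Finset (List A), Q.Nonempty →
    ∃ T : Finset (List A), Lam f Q T = Lam f Q Set.univ

def Gam (f : List A → S) (Q : Set (List A)) (T : Finset (List A)) :
    Set ((T → S) × (T → A → T → S)) :=
  {g | (∀ w ∈ Q, f w = ∑ t : T, f (w ++ t.1) * g.1 t) ∧
    ∀ (a : A) (t : T), ∀ w ∈ Q, f (w ++ a :: t.1) = ∑ s : T, f (w ++ s.1) * g.2 s a t}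

def CoGuessable (f : List A → S) : Prop :=
  ∃ Q T : Finset (List A), T.Nonempty ∧ Gam f Q T = Gam f Set.univ T ∧
    (Gam f Set.univ T).Nonempty

def StronglyCoGuessable (f : List A → S) : Prop :=
  CoGuessable f ∧ ∀ T : Finset (List A), T.Nonempty →
    ∃ Q : Finset (List A), Gam f Q T = Gam f Set.univ T

end defs

def M : Submonoid (Function.End ℕ) where
  carrier := {g | (∀ k, g k = k) ∨ (∀ k, g k = k + 1) ∨ (∃ c, ∀ k, g k = c) ∨ ∀ k, k + 2 ≤ g k}
  one_mem' := Or.inl fun _ => rfl
  mul_mem' := by
    intro g h hg hh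
    have e : ∀ k, (g * h) k = g (h k) := fun _ => rfl
    simp only [Set.mem_setOf_eq, e] at *
    rcases hh with hh | hh | ⟨c, hh⟩ | hh
    · simpa only [hh] using hg
    · rcases hg with hg | hg | ⟨c, hg⟩ | hg
      · exact .inr (.inl fun k => by rw [hg, hh])
      · exact .inr (.inr (.inr fun k => by rw [hg, hh]))
      · exact .inr (.inr (.inl ⟨c, fun k => hg _⟩))
      · exact .inr (.inr (.inr fun k => by have := hg (h k); have := hh k; omega))
    · exact .inr (.inr (.inl ⟨g c, fun k => by rw [hh]⟩))
    · rcases hg with hg | hg | ⟨c, hg⟩ | hg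
      · exact .inr (.inr (.inr fun k => by rw [hg]; exact hh k))
      · exact .inr (.inr (.inr fun k => by have := hg (h k); have := hh k; omega))
      · exact .inr (.inr (.inl ⟨c, fun k => hg _⟩))
      · exact .inr (.inr (.inr fun k => by have := hg (h k); have := hh k; omega))

abbrev S := SetSemiring M

def cst (j : ℕ) : M := ⟨fun _ => j, .inr (.inr (.inl ⟨j, fun _ => rfl⟩))⟩
def suc : M := ⟨fun k => k + 1, .inr (.inl fun _ => rfl)⟩
def sg (m : M) : S := Set.up {m}
def F (w : List Unit) : S := sg (cst w.length)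

theorem sg_mul (m m' : M) : sg m * sg m' = sg (m * m') := by
  change (({m} : Set M) * ({m'} : Set M)) = ({m * m'} : Set M)
  simp

theorem sg_cst (m : M) (j : ℕ) : sg m * sg (cst j) = sg (cst (m.1 j)) := sg_mul _ _

theorem mulK (l : S) (j i : ℕ) :
    sg (cst i) = l * sg (cst j) ↔ l.down.Nonempty ∧ ∀ m ∈ l.down, m.1 j = i := by
  change ({cst i} : Set M) = l.down * ({cst j} : Set M) ↔ _
  rw [Set.mul_singleton, eq_comm, Set.eq_singleton_iff_nonempty_unique_mem, Set.image_nonempty]
  refine and_congr_right fun _ => ?_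
  simp only [Set.forall_mem_image]
  refine forall₂_congr fun m _ => ⟨fun h => ?_, fun h => ?_⟩
  · exact congrFun (congrArg Subtype.val h) 0
  · exact Subtype.ext (funext fun _ => h)

theorem ext2 (l : S) (s : ℕ) (hs : s ≤ 1) (h0 : sg (cst s) = l * sg (cst 0))
    (h1 : sg (cst (s + 1)) = l * sg (cst 1)) (j : ℕ) : sg (cst (s + j)) = l * sg (cst j) := by
  rw [mulK] at *
  refine ⟨h0.1, fun m hm => ?_⟩
  have a := h0.2 m hm
  have b := h1.2 m hm
  rcases m.2 with h | h | ⟨c, h⟩ | h
  · have := h 0; have := h j; omega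
  · have := h 0; have := h j; omega
  · have := h 0; have := h 1; omega
  · have := h 0; omega

theorem guess : Guessable F := by
  refine ⟨{[]}, {[], [()]}, by simp, ?_, ⟨(fun _ => 1, fun _ _ _ => sg suc), ?_, ?_⟩⟩
  · refine Set.Subset.antisymm ?_ fun l h => ⟨fun w _ => h.1 w trivial, fun q a w _ => h.2 q a w trivial⟩
    rintro l ⟨h1, h2⟩
    refine ⟨fun w _ => ?_, fun q a w _ => ?_⟩
    · have a0 := h1 [] (by simp)
      have a1 := h1 [()] (by simp)
      simp only [Finset.univ_unique, Finset.sum_singleton, Finset.default_singleton,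
        List.nil_append, F] at a0 a1 ⊢
      simpa using ext2 _ 0 (by omega) a0 a1 w.length
    · have a0 := h2 q a [] (by simp)
      have a1 := h2 q a [()] (by simp)
      obtain ⟨q, hq⟩ := q
      obtain rfl := Finset.mem_singleton.1 hq
      simp only [Finset.univ_unique, Finset.sum_singleton, Finset.default_singleton,
        List.nil_append, F, List.length_append] at a0 a1 ⊢
      simpa using ext2 _ 1 (by omega) a0 a1 w.length
  · intro w _
    simp
  · rintro ⟨q, hq⟩ a w _
    obtain rfl := Finset.mem_singleton.1 hq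
    simp only [Finset.univ_unique, Finset.sum_singleton, Finset.default_singleton,
      List.nil_append, F, List.length_append, sg_cst, suc, List.length_singleton, add_comm,
      List.length_nil, add_zero]

theorem nostrong (T : Finset (List Unit)) :
    Lam F {[], [()]} T ≠ Lam F {[], [()]} Set.univ := by
  classical
  intro h
  let N := T.sup List.length + 1
  let g : M := ⟨fun k => if k < N then k + 2 else k + 3, .inr (.inr (.inr fun k => by
    dsimp only
    split_ifs <;> omega))⟩
  let z : ({[], [()]} : Finset (List Unit)) := ⟨[], by simp⟩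
  let l : (({[], [()]} : Finset (List Unit)) → S) ×
      (({[], [()]} : Finset (List Unit)) → Unit → ({[], [()]} : Finset (List Unit)) → S) :=
    (fun q => if q = z then 1 else 0,
      fun q _ p => if p = z then (if q = z then sg suc else sg g) else 0)
  have hl : l ∈ Lam F {[], [()]} T := by
    refine ⟨fun w _ => by simp [l, z], fun q a w hw => ?_⟩
    have : w.length < N := Nat.lt_succ_of_le (Finset.le_sup (f := List.length) hw)
    simp only [l, ite_mul, zero_mul, Finset.sum_ite_eq', Finset.mem_univ, if_true]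
    obtain ⟨q, hq⟩ := q
    simp only [Finset.mem_insert, Finset.mem_singleton] at hq
    rcases hq with rfl | rfl
    · simp [z, F, sg_cst, suc]
    · simp [z, F, sg_cst, g, this]
  rw [h] at hl
  have := hl.2 ⟨[()], by simp⟩ () (List.replicate N ()) trivial
  simp only [l, ite_mul, zero_mul, Finset.sum_ite_eq', Finset.mem_univ, if_true] at this
  rw [if_neg (by simp [z])] at this
  simp only [F, z, List.nil_append, List.length_append, List.length_replicate, mulK] at this
  have := this.2 g rfl
  simp [g] at this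
  omega

def flip (T : Finset (List Unit)) : ((T → Sᵐᵒᵖ) × (T → Unit → T → Sᵐᵒᵖ)) ≃
    ((T → S) × (T → Unit → T → S)) where
  toFun g := (fun t => unop (g.1 t), fun t a s => unop (g.2 s a t))
  invFun g := (fun t => op (g.1 t), fun s a t => op (g.2 t a s))
  left_inv _ := rfl
  right_inv _ := rfl

theorem gam_eq (Q : Set (List Unit)) (T : Finset (List Unit)) :
    Gam (fun w => op (F w)) Q T = flip T ⁻¹' Lam F T Q := by
  ext g
  have e : ∀ u v : List Unit, F (u ++ v) = F (v ++ u) := fun u v => by simp [F, add_comm]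
  have e2 : ∀ (u v : List Unit) (a : Unit), F (u ++ a :: v) = F (v ++ [a] ++ u) := fun u v a => by
    simp only [F, List.length_append, List.length_cons, List.length_nil]
    congr 2
    omega
  simp only [Gam, Lam, flip, Set.mem_setOf_eq, Set.mem_preimage, Equiv.coe_fn_mk,
    ← unop_inj, unop_op, Finset.unop_sum, unop_mul]
  refine and_congr (by simp only [e]) ⟨fun h t a w hw => ?_, fun h a t w hw => ?_⟩
  · rw [← e2, h a t w hw]
    simp only [e]
  · rw [e2, h t a w hw]
    simp only [e]

theorem comp1 : Computed F := by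
  refine ⟨1, fun _ => 1, fun _ => Matrix.of fun _ _ => sg suc, fun _ => sg (cst 0), fun w => ?_⟩
  simp only [dotProduct, Finset.univ_unique, Finset.sum_singleton, one_mul]
  induction w with
  | nil => simp [F]
  | cons a w ih =>
    rw [List.map_cons, List.prod_cons, ← Matrix.mulVec_mulVec, Matrix.mulVec, dotProduct]
    simp only [Finset.univ_unique, Finset.sum_singleton, ← ih, Matrix.of_apply, F, sg_cst]
    rfl

theorem comp2 : Computed (fun w => op (F w)) := by
  refine ⟨1, fun _ => op (sg (cst 0)), fun _ => Matrix.of fun _ _ => op (sg suc), fun _ => 1,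
    fun w => ?_⟩
  simp only [dotProduct, Finset.univ_unique, Finset.sum_singleton]
  induction w using List.reverseRecOn with
  | nil => simp [F]
  | append_singleton w a ih =>
    simp only [Matrix.mulVec, dotProduct, Finset.univ_unique, Finset.sum_singleton, mul_one,
      List.map_append, List.prod_append, List.map_singleton, List.prod_singleton,
      Matrix.mul_apply, Matrix.of_apply] at ih ⊢
    rw [← mul_assoc, ← ih, ← op_mul, F, F, sg_cst]
    simp [suc]

theorem result :
    (∃ (S A : Type) (_ : Semiring S) (_ : Fintype A) (f : List A → S),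
      Computed f ∧ Guessable f ∧ ¬ StronglyGuessable f) ∧
    (∃ (S A : Type) (_ : Semiring S) (_ : Fintype A) (f : List A → S),
      Computed f ∧ CoGuessable f ∧ ¬ StronglyCoGuessable f) := by
  refine ⟨⟨S, Unit, inferInstance, inferInstance, F, comp1, guess, fun h => ?_⟩,
    ⟨Sᵐᵒᵖ, Unit, inferInstance, inferInstance, fun w => op (F w), comp2, ?_, fun h => ?_⟩⟩
  · obtain ⟨T, hT⟩ := h.2 {[], [()]} (by simp)
    exact nostrong T hT
  · obtain ⟨Q, T, h1, h2, h3⟩ := guess
    refine ⟨T, Q, h1, by rw [gam_eq, gam_eq, h2], ?_⟩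
    rw [gam_eq]
    exact h3.preimage (flip Q).surjective
  · obtain ⟨Q, hQ⟩ := h.2 {[], [()]} (by simp)
    rw [gam_eq, gam_eq] at hQ
    exact nostrong Q ((flip _).surjective.preimage_injective hQ)

end Pool.Agent.Results.MP_2c9be0_lc.Separate
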